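import Pool.Agent.E8helper50.SR.S2

/-!
# Project SR (MP_1a662b_al), piece GRN: nonvanishing products in the Grassmann algebra
-/

set_option autoImplicit false

universe u

namespace Pool.Agent.E8helper70.SR

open Pool.Agent.E8helper50.SR
open CliffordAlgebra

variable {F : Type u} [Field F]

lemma contract_zero (d : Module.Dual F (ℕ →₀ F)) : ∀ (n : ℕ) (g : Fin (n + 1) → Gr F),
    (∀ i, g i = 1 ∨ ∃ v : ℕ →₀ F, g i = ι (0 : QuadraticForm F (ℕ →₀ F)) v ∧ d v = 0) →
    contractRight (wprod n g) d = 0
  | 0, g, h => by
    rcases h 0 with h0 | ⟨v, h0, hv⟩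
    · simp only [wprod]
      rw [h0]
      exact contractRight_one (Q := (0 : QuadraticForm F (ℕ →₀ F))) (d := d)
    · simp only [wprod]
      rw [h0]
      refine (contractRight_ι (Q := (0 : QuadraticForm F (ℕ →₀ F))) (d := d) v).trans ?_
      rw [hv, map_zero]
  | n + 1, g, h => by
    have ih := contract_zero d n (fun i => g i.castSucc) (fun i => h _)
    simp only [wprod]
    rcases h (Fin.last (n + 1)) with h0 | ⟨v, h0, hv⟩
    · rw [h0, mul_one]
      exact ih
    · rw [h0]
      refine (contractRight_mul_ι (Q := (0 : QuadraticForm F (ℕ →₀ F))) (d := d) v (wprod n fun i => g i.castSucc)).trans ?_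
      rw [hv, ih, zero_smul, zero_mul, sub_zero]

/-- the factors -/
noncomputable def fac (F : Type u) [Field F] (p : ZMod 2) (i : ℕ) : Gr F :=
  if p = 1 then ι (0 : QuadraticForm F (ℕ →₀ F)) (Finsupp.single i 1) else 1

lemma nonzero : ∀ (n : ℕ) (p : Fin (n + 1) → ZMod 2), wprod n (fun i => fac F (p i) (i : ℕ)) ≠ 0
  | 0, p => by
    simp only [wprod, fac]
    split_ifs with h
    · intro h0
      have h2 := (ExteriorAlgebra.ι_eq_zero_iff (R := F) (Finsupp.single 0 (1 : F) : ℕ →₀ F)).1 h0
      rw [Finsupp.single_eq_zero] at h2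
      exact one_ne_zero h2
    · exact one_ne_zero
  | n + 1, p => by
    have ih := nonzero n (fun i => p i.castSucc)
    have e : wprod (n + 1) (fun i => fac F (p i) (i : ℕ)) =
        wprod n (fun i => fac F (p i.castSucc) (i : ℕ)) * fac F (p (Fin.last (n + 1))) (n + 1) := by
      simp only [wprod, Fin.val_castSucc, Fin.val_last]
    rw [e]
    by_cases h : p (Fin.last (n + 1)) = 1
    · intro h0
      unfold fac at h0
      rw [if_pos h] at h0
      set d : Module.Dual F (ℕ →₀ F) := Finsupp.lapply (n + 1) with hd
      have h2 : contractRight (wprod n fun i => fac F (p i.castSucc) (i : ℕ)) d = 0 := by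
        apply contract_zero
        intro i
        unfold fac
        split_ifs with h3
        · refine Or.inr ⟨_, rfl, ?_⟩
          rw [hd, Finsupp.lapply_apply, Finsupp.single_apply, if_neg]
          have := i.2
          omega
        · exact Or.inl rfl
      have h3 := contractRight_mul_ι (Q := (0 : QuadraticForm F (ℕ →₀ F))) (d := d) (Finsupp.single (n + 1) 1)
        (wprod n fun i => fac F (p i.castSucc) (i : ℕ))
      have h4 : (wprod n (fun i => fac F (p i.castSucc) (i : ℕ))) = 0 := by
        have e5 : d (Finsupp.single (n + 1) 1) = 1 := by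
          rw [hd, Finsupp.lapply_apply, Finsupp.single_eq_same]
        rw [h2, e5, one_smul, zero_mul, sub_zero] at h3
        rw [← h3]
        unfold fac
        rw [h0]
        rw [map_zero, LinearMap.zero_apply]
      exact ih h4
    · unfold fac at ih ⊢
      rw [if_neg h, mul_one]
      exact ih

theorem t_GRN : S_GRN.{u} := by
  intro F _ n p
  refine ⟨fun i => fac F (p i) (i : ℕ), ?_, nonzero n p⟩
  intro i
  beta_reduce
  unfold fac
  split_ifs with h
  · rw [h]
    exact ι_mem_evenOdd_one _ _
  · have h0 : p i = 0 := by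
      generalize p i = x at h ⊢
      revert x
      decide
    rw [h0]
    exact one_le_evenOdd_zero _ (Submodule.one_le.1 le_rfl)

end Pool.Agent.E8helper70.SR
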