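import Pool.Agent.E8helper50.SR.S5
import Pool.Agent.E8helper63.SR.Rs

/-!
# Project SR (MP_1a662b_al), piece MNR: representable superalgebras
-/

set_option autoImplicit false

universe u

namespace Pool.Agent.E8helper70.SR

open Pool.Agent.E8helper50.SR
open Pool.Agent.E8helper63.SR (map_lift)

/-- transfer from an extension field -/
lemma transfer (hR : S_RS.{u}) {F K : Type u} [Field F] [Field K] [Algebra F K] {A : SAlg F}
    {C : SAlg K} (hsat : ∀ f : MPoly F, Sat A f ↔ Sat C (f.map : MPoly K)) {r s : ℕ}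
    (h : MainRS C r s) : MainRS A r s := by
  intro f hf
  obtain ⟨M, hM, x, hx, w, hw⟩ := h f.map fun h => hf ((hsat f).2 h)
  obtain ⟨M', e, hinj, hgr, hs, hev⟩ := hR F K M
  refine ⟨M', fun g hg => hs g (hM _ ((hsat g).1 hg)), fun i => e (x i),
    fun i => hgr _ _ (hx i), w, ?_⟩
  intro h0
  apply hw
  apply hinj
  have h1 := hev f (fun i => wpar (w i)) (fun i => FreeSemigroup.lift x (w i))
  have h2 : ∀ i, e (FreeSemigroup.lift x (w i)) = FreeSemigroup.lift (fun i => e (x i)) (w i) :=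
    fun i => map_lift e x (w i)
  rw [map_zero]
  refine h1.trans (Eq.trans ?_ h0)
  congr 1
  funext i
  exact h2 i

theorem t_MNR : S_ASM.{u} → S_AS2.{u} → S_BC.{u} → S_RS.{u} → S_REP.{u} → S_MNR.{u} := by
  intro hA hA2 hB hR hP F _ A hrep
  obtain ⟨L, iL, iFL, C, hfin, hsat⟩ := hP F A hrep
  obtain ⟨C2, hfin2, hsat2⟩ := hB L (AlgebraicClosure L) C
  have hmap : ∀ f : MPoly F, ((f.map : MPoly L).map : MPoly (AlgebraicClosure L)) =
      (f.map : MPoly (AlgebraicClosure L)) := by
    intro f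
    unfold MPoly.map
    simp only [← IsScalarTower.algebraMap_apply F L (AlgebraicClosure L)]
  have hall : ∀ f : MPoly F, Sat A f ↔ Sat C2 (f.map : MPoly (AlgebraicClosure L)) := by
    intro f
    rw [← hmap f]
    exact (hsat f).trans (hsat2 _)
  obtain ⟨N, hN⟩ := hA (AlgebraicClosure L) C2
  obtain ⟨N', hN'⟩ := hA2 (AlgebraicClosure L) C2
  exact ⟨⟨N, transfer hR hall hN⟩, ⟨N', transfer hR hall hN'⟩⟩

end Pool.Agent.E8helper70.SR
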